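import Pool.Agent.R3.C4H.Tut

namespace Pool.Agent.R3.C4H

open SimpleGraph

theorem even_lem : S_EVEN := by
  classical
  intro V _ H h4 hs hev
  rcases tut V Hᶜ hev with ⟨f, hf, hadj⟩ | ⟨S, c, g, hsep, hgS, hginj, hodd⟩
  · refine ⟨f, hf, fun x => ?_⟩
    have := hadj x
    rw [compl_adj] at this
    exact ⟨this.1.symm, this.2⟩
  · exfalso
    have hj : ∀ x y, x ∉ S → y ∉ S → c x ≠ c y → H.Adj x y := by
      intro x y hx hy hxy
      have h1 := hsep x y hx hy hxy
      rw [compl_adj] at h1
      by_contra h2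
      exact h1 ⟨fun h => hxy (by rw [h]), h2⟩
    have hfour : ∀ x y z w, x ∉ S → y ∉ S → z ∉ S → w ∉ S → c x ≠ c y → c y ≠ c z → c z ≠ c w →
        c w ≠ c x → c x ≠ c z → c y ≠ c w → False := by
      intro x y z w hx hy hz hw h1 h2 h3 h5 h6 h7
      exact h4 x y z w (fun h => h6 (by rw [h])) (fun h => h7 (by rw [h])) (hj x y hx hy h1)
        (hj y z hy hz h2) (hj z w hz hw h3) (hj w x hw hx h5)
    have hsing : ∀ x y z x', x ∉ S → y ∉ S → z ∉ S → x' ∉ S → c x ≠ c y → c y ≠ c z →
        c x ≠ c z → c x' = c x → x' = x := by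
      intro x y z x' hx hy hz hx' h1 h2 h3 hc
      by_contra hne
      exact h4 x y x' z (fun h => hne h.symm) (fun h => h2 (by rw [h])) (hj x y hx hy h1)
        (hj y x' hy hx' (by rw [hc]; exact h1.symm)) (hj x' z hx' hz (by rw [hc]; exact h3))
        (hj z x hz hx h3.symm)
    -- three classes cover everything outside `S`
    have hthree : ∀ x y z, x ∉ S → y ∉ S → z ∉ S → c x ≠ c y → c y ≠ c z → c x ≠ c z →
        ∀ w, w ∉ S → w = x ∨ w = y ∨ w = z := by
      intro x y z hx hy hz h1 h2 h3 w hw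
      by_cases e1 : c w = c x
      · exact Or.inl (hsing x y z w hx hy hz hw h1 h2 h3 e1)
      · by_cases e2 : c w = c y
        · exact Or.inr (Or.inl (hsing y x z w hy hx hz hw h1.symm h3 h2 e2))
        · by_cases e3 : c w = c z
          · exact Or.inr (Or.inr (hsing z x y w hz hx hy hw h3.symm h1 h2.symm e3))
          · exact absurd (hfour x y z w hx hy hz hw h1 h2 (fun h => e3 h.symm) e1 h3
              (fun h => e2 h.symm)) id
    have hgne : ∀ i j, i ≠ j → c (g i) ≠ c (g j) := fun i j h h' => h (hginj i j h')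
    have hS1 : S.card ≤ 1 := by
      by_contra hcon
      have e : ∀ i j : ℕ, ∀ (hi : i < S.card + 2) (hj : j < S.card + 2), i ≠ j →
          c (g ⟨i, hi⟩) ≠ c (g ⟨j, hj⟩) := fun i j hi hj h => hgne _ _ (by
            intro h'; exact h (Fin.mk.inj h'))
      exact hfour (g ⟨0, by omega⟩) (g ⟨1, by omega⟩) (g ⟨2, by omega⟩) (g ⟨3, by omega⟩)
        (hgS _) (hgS _) (hgS _) (hgS _) (e 0 1 _ _ (by norm_num)) (e 1 2 _ _ (by norm_num))
        (e 2 3 _ _ (by norm_num)) (e 3 0 _ _ (by norm_num)) (e 0 2 _ _ (by norm_num))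
        (e 1 3 _ _ (by norm_num))
    have h01 : c (g ⟨0, by omega⟩) ≠ c (g ⟨1, by omega⟩) := hgne _ _ (by
      intro h'; exact absurd (Fin.mk.inj h') (by norm_num))
    rcases Nat.lt_or_ge S.card 1 with h0 | h0
    · have hSe : S = ∅ := Finset.card_eq_zero.1 (by omega)
      have hn : ∀ x, x ∉ S := fun x => by rw [hSe]; simp
      set a := g ⟨0, by omega⟩ with ha
      set b := g ⟨1, by omega⟩ with hb
      -- a vertex adjacent to all the others
      have hdom : ∃ p, (∃ x, x ≠ p) ∧ ∀ x, x ≠ p → H.Adj p x := by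
        by_cases ht : ∃ t, c t ≠ c a ∧ c t ≠ c b
        · obtain ⟨t, ht1, ht2⟩ := ht
          refine ⟨a, ⟨b, fun h => h01 (by rw [h])⟩, fun x hx => ?_⟩
          rcases hthree a b t (hn _) (hn _) (hn _) h01 ht2.symm ht1.symm x (hn _) with h | h | h
          · exact absurd h hx
          · rw [h]; exact hj _ _ (hn _) (hn _) h01
          · rw [h]; exact hj _ _ (hn _) (hn _) ht1.symm
        · push Not at ht
          by_cases hA : ∀ x, c x = c a → x = a
          · refine ⟨a, ⟨b, fun h => h01 (by rw [h])⟩, fun x hx => ?_⟩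
            exact hj _ _ (hn _) (hn _) (fun h => hx (hA x h.symm))
          · push Not at hA
            obtain ⟨x, hxa, hxne⟩ := hA
            refine ⟨b, ⟨a, fun h => h01 (by rw [h])⟩, fun y hy => ?_⟩
            apply hj _ _ (hn _) (hn _)
            intro hcy
            exact h4 a b x y (fun h => hxne h.symm) (fun h => hy h.symm)
              (hj _ _ (hn _) (hn _) h01) (hj _ _ (hn _) (hn _) (by rw [hxa]; exact h01.symm))
              (hj _ _ (hn _) (hn _) (by rw [hxa, ← hcy]; exact h01))
              (hj _ _ (hn _) (hn _) (by rw [← hcy]; exact h01.symm))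
      obtain ⟨p, ⟨x, hxp⟩, hp⟩ := hdom
      obtain ⟨y, z, hy, hz, hyz, hnyz⟩ := hs x
      have hyp : y ≠ p := by
        rintro rfl
        exact hnyz (hp z (fun h => hyz h.symm))
      have hzp : z ≠ p := by
        rintro rfl
        exact hnyz (hp y hyz).symm
      exact h4 p y x z (fun h => hxp h.symm) hyz (hp y hyp) hy.symm hz (hp z hzp).symm
    · obtain ⟨s, hSs⟩ := Finset.card_eq_one.1 (show S.card = 1 by omega)
      have h02 : c (g ⟨0, by omega⟩) ≠ c (g ⟨2, by omega⟩) := hgne _ _ (by
        intro h'; exact absurd (Fin.mk.inj h') (by norm_num))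
      have h12 : c (g ⟨1, by omega⟩) ≠ c (g ⟨2, by omega⟩) := hgne _ _ (by
        intro h'; exact absurd (Fin.mk.inj h') (by norm_num))
      have hall := hthree _ _ _ (hgS _) (hgS _) (hgS _) h01 h12 h02
      obtain ⟨y, z, hy, hz, hyz, hnyz⟩ := hs s
      have hyS : y ∉ S := by rw [hSs]; simp; exact hy.ne'
      have hzS : z ∉ S := by rw [hSs]; simp; exact hz.ne'
      apply hnyz
      apply hj y z hyS hzS
      intro hc
      rcases hall y hyS with h | h | h <;> rcases hall z hzS with h' | h' | h' <;>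
        rw [h, h'] at hc
      · exact hyz (by rw [h, h'])
      · exact h01 hc
      · exact h02 hc
      · exact h01 hc.symm
      · exact hyz (by rw [h, h'])
      · exact h12 hc
      · exact h02 hc.symm
      · exact h12 hc.symm
      · exact hyz (by rw [h, h'])

end Pool.Agent.R3.C4H
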