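import Mathlib

/-! Clique minors in graphs whose complement has no 4-cycle (MP_b47bfb_co), helper3. -/

namespace Pool.Agent.R3.C4H

/-- no cycle of length 4 (not necessarily induced) -/
def C4Free {V : Type} (H : SimpleGraph V) : Prop :=
  ∀ a b c d : V, a ≠ c → b ≠ d → H.Adj a b → H.Adj b c → H.Adj c d → ¬ H.Adj d a

/-- no simplicial vertex: every vertex has two nonadjacent neighbours -/
def NoSimp {V : Type} (H : SimpleGraph V) : Prop :=
  ∀ x : V, ∃ y z : V, H.Adj x y ∧ H.Adj x z ∧ y ≠ z ∧ ¬ H.Adj y z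

/-- consequence of Tutte's theorem -/
def S_TUT : Prop := ∀ (W : Type) [Fintype W] [DecidableEq W] (K : SimpleGraph W),
  Even (Fintype.card W) →
  (∃ f : W → W, (∀ x, f (f x) = x) ∧ ∀ x, K.Adj x (f x)) ∨
  ∃ (S : Finset W) (c : W → ℕ) (g : Fin (S.card + 2) → W),
    (∀ x y, x ∉ S → y ∉ S → c x ≠ c y → ¬ K.Adj x y) ∧
    (∀ i, g i ∉ S) ∧ (∀ i j, c (g i) = c (g j) → i = j) ∧
    (∀ i, Odd (Finset.univ.filter (fun x => x ∉ S ∧ c x = c (g i))).card)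

def S_EVEN : Prop := ∀ (V : Type) [Fintype V] (H : SimpleGraph V), C4Free H → NoSimp H →
  Even (Fintype.card V) →
  ∃ f : V → V, (∀ x, f (f x) = x) ∧ (∀ x, f x ≠ x ∧ ¬ H.Adj x (f x))

def S_ODD : Prop := ∀ (V : Type) [Fintype V] (H : SimpleGraph V), C4Free H → NoSimp H →
  Odd (Fintype.card V) →
  ∃ (v : V) (f : V → V), (∀ x, f (f x) = x) ∧ f v = v ∧
    (∀ x, x ≠ v → f x ≠ x ∧ ¬ H.Adj x (f x) ∧ ¬ (H.Adj v x ∧ H.Adj v (f x)))

end Pool.Agent.R3.C4H
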