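import Pool.Agent.TH481.DenseMinor8
import Pool.Agent.R3.C4H.Stm
import Pool.Agent.R3.C4H.Even

/-! Clique minors in graphs whose complement has no 4-cycle (MP_b47bfb_co), helper3. -/

set_option autoImplicit false
set_option linter.unusedVariables false
set_option linter.unusedSectionVars false

namespace Pool.Agent.R3.C4H

open Finset Pool.Agent.W212.EFF TH481.DM

/-- a `K_t` minor whose branch sets have at most two vertices -/
def SmallMinor {V : Type} (G : SimpleGraph V) (k : ℕ) : Prop :=
  ∃ f : Fin k → Set V, (∀ i, (f i).encard ≤ 2) ∧ (∀ i, (G.induce (f i)).Connected) ∧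
    (∀ i j, i ≠ j → Disjoint (f i) (f j)) ∧ (∀ i j, i ≠ j → ∃ u ∈ f i, ∃ v ∈ f j, G.Adj u v)

lemma small_of_family {V : Type} (G : SimpleGraph V) {ι : Type} [Fintype ι] (g : ι → Set V)
    (hs : ∀ i, (g i).encard ≤ 2)
    (hc : ∀ i, (G.induce (g i)).Connected) (hd : ∀ i j, i ≠ j → Disjoint (g i) (g j))
    (ha : ∀ i j, i ≠ j → ∃ u ∈ g i, ∃ v ∈ g j, G.Adj u v) (t : ℕ) (ht : t ≤ Fintype.card ι) :
    SmallMinor G t := by
  obtain ⟨e⟩ : Nonempty (Fin t ↪ ι) :=
    Function.Embedding.nonempty_of_card_le (by simpa using ht)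
  exact ⟨fun i => g (e i), fun i => hs _, fun i => hc _, fun i j h => hd _ _ (fun h' => h (e.injective h')),
    fun i j h => ha _ _ (fun h' => h (e.injective h'))⟩

open Classical in
/-- minor from an involution -/
theorem minor_of_involution {V : Type} [Fintype V] (G H : SimpleGraph V)
    (hHadj : ∀ u v, H.Adj u v ↔ u ≠ v ∧ ¬ G.Adj u v) (hC : C4Free H)
    (f : V → V) (hinv : ∀ x, f (f x) = x) (h1 : ∀ x, f x ≠ x → ¬ H.Adj x (f x))
    (h2 : ∀ x, f x = x → ∀ y, y ≠ x → f y ≠ y ∧ ¬ (H.Adj x y ∧ H.Adj x (f y)))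
    (t : ℕ) (ht : 2 * t ≤ Fintype.card V + 1) : SmallMinor G t := by
  have hadj : ∀ u v, u ≠ v → ¬ H.Adj u v → G.Adj u v := by
    intro u v huv h
    by_contra hG
    exact h ((hHadj u v).2 ⟨huv, hG⟩)
  set F : Finset (Finset V) := (univ : Finset V).image (fun x => ({x, f x} : Finset V)) with hF
  have hmemF : ∀ s : {s // s ∈ F}, ∃ x, s.1 = {x, f x} := by
    intro s
    obtain ⟨x, _, hx⟩ := Finset.mem_image.1 s.2
    exact ⟨x, hx.symm⟩
  have hcard : Fintype.card V ≤ 2 * F.card := by
    have := Finset.card_le_mul_card_image (f := fun x => ({x, f x} : Finset V))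
      (univ : Finset V) 2 (by
        intro s hs
        obtain ⟨x, _, hx⟩ := Finset.mem_image.1 hs
        have hsub : (univ : Finset V).filter (fun y => ({y, f y} : Finset V) = s) ⊆ {x, f x} := by
          intro y hy
          rw [Finset.mem_filter] at hy
          have : y ∈ ({y, f y} : Finset V) := by simp
          rw [hy.2, ← hx] at this
          exact this
        exact (Finset.card_le_card hsub).trans Finset.card_le_two)
    simpa using this
  choose rep hrep using hmemF
  have hpair : ∀ x y : V, x ∈ ({y, f y} : Finset V) → ({x, f x} : Finset V) = {y, f y} := by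
    intro x y hx
    rw [Finset.mem_insert, Finset.mem_singleton] at hx
    rcases hx with rfl | rfl
    · rfl
    · rw [hinv, Finset.pair_comm]
  refine small_of_family G (ι := {s // s ∈ F}) (fun s => ({rep s, f (rep s)} : Set V)) ?_ ?_ ?_ ?_ t ?_
  · intro s
    refine (Set.encard_insert_le _ _).trans ?_
    rw [Set.encard_singleton]
    norm_num
  · intro s
    by_cases hx : f (rep s) = rep s
    · have : ({rep s, f (rep s)} : Set V) = {rep s} := by rw [hx]; simp
      show (G.induce ({rep s, f (rep s)} : Set V)).Connected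
      rw [this]
      exact connected_singleton G _
    · exact SimpleGraph.induce_pair_connected_of_adj (hadj _ _ (Ne.symm hx) (h1 _ hx))
  · intro s s' hss
    rw [Set.disjoint_left]
    intro z hz hz'
    apply hss
    apply Subtype.ext
    rw [hrep s, hrep s']
    have e1 := hpair z (rep s) (by simpa using hz)
    have e2 := hpair z (rep s') (by simpa using hz')
    rw [← e1, ← e2]
  · intro s s' hss
    set x := rep s with hx
    set y := rep s' with hy
    have hne : ({x, f x} : Finset V) ≠ {y, f y} := by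
      rw [hx, hy, ← hrep s, ← hrep s']
      exact fun h => hss (Subtype.ext h)
    have n1 : x ≠ y := fun h => hne (by rw [h])
    have n2 : x ≠ f y := fun h => hne (hpair x y (by rw [h]; simp))
    have n3 : f x ≠ y := fun h => hne ((hpair y x (by rw [← h]; simp)).symm)
    have n4 : f x ≠ f y := fun h => n1 (by rw [← hinv x, h, hinv y])
    by_contra hcon
    push Not at hcon
    have a1 : H.Adj x y := (hHadj _ _).2 ⟨n1, hcon x (by simp) y (by simp)⟩
    have a2 : H.Adj x (f y) := (hHadj _ _).2 ⟨n2, hcon x (by simp) (f y) (by simp)⟩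
    have a3 : H.Adj (f x) y := (hHadj _ _).2 ⟨n3, hcon (f x) (by simp) y (by simp)⟩
    have a4 : H.Adj (f x) (f y) := (hHadj _ _).2 ⟨n4, hcon (f x) (by simp) (f y) (by simp)⟩
    by_cases hfx : f x = x
    · exact (h2 x hfx y n1.symm).2 ⟨a1, a2⟩
    · by_cases hfy : f y = y
      · exact (h2 y hfy x n1).2 ⟨a1.symm, a3.symm⟩
      · exact hC x y (f x) (f y) (Ne.symm hfx) (Ne.symm hfy) a1 a3.symm a4 a2.symm
  · rw [Fintype.card_coe]
    omega

open Classical in
/-- the simplicial reduction -/
theorem noSimp_of_min {V : Type} [Fintype V] (G H : SimpleGraph V)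
    (hHadj : ∀ u v, H.Adj u v ↔ u ≠ v ∧ ¬ G.Adj u v) (k : ℕ)
    (h1 : ¬ G.Colorable k) (h2 : ¬ HasCliqueMinor G (k + 1))
    (hmin : ∀ U : Set V, U ≠ Set.univ → ∀ j, ¬ (G.induce U).Colorable j →
      HasCliqueMinor (G.induce U) (j + 1)) : NoSimp H := by
  intro x
  by_contra hcon
  push Not at hcon
  -- closed neighbourhood of `x` in `H`
  set C : Finset V := univ.filter (fun y => y = x ∨ H.Adj x y) with hCdef
  have hmemC : ∀ y, y ∈ C ↔ (y = x ∨ H.Adj x y) := by
    intro y; simp [hCdef]
  have hInd : Ind G C := by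
    intro y hy z hz hG
    have hyz : y ≠ z := hG.ne
    have hH : H.Adj y z := by
      rcases (hmemC y).1 hy with rfl | hxy
      · rcases (hmemC z).1 hz with rfl | hxz
        · exact absurd rfl hyz
        · exact hxz
      · rcases (hmemC z).1 hz with rfl | hxz
        · exact hxy.symm
        · exact hcon y z hxy hxz hyz
    exact ((hHadj y z).1 hH).2 hG
  have hYC : Y (Ind G) C ≤ 1 := Y_le (Cov.face hInd)
  have hk := lt_Y_univ G k h1
  have hun : Y (Ind G) (univ : Finset V) ≤ Y (Ind G) C + Y (Ind G) Cᶜ := by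
    have := Y_union_le (ind_cpx G) C Cᶜ
    rwa [Finset.union_compl] at this
  have hxC : x ∈ C := (hmemC x).2 (Or.inl rfl)
  have hne : ((Cᶜ : Finset V) : Set V) ≠ Set.univ := by
    intro h
    have : x ∈ ((Cᶜ : Finset V) : Set V) := by rw [h]; trivial
    rw [Finset.mem_coe, Finset.mem_compl] at this
    exact this hxC
  have hM : MinorIn G ((Cᶜ : Finset V) : Set V) (Y (Ind G) Cᶜ) := by
    rcases Nat.eq_zero_or_pos (Y (Ind G) Cᶜ) with h0 | h0
    · rw [h0]; exact minorIn_zero G _
    · have h3 := hmin _ hne _ (not_colorable_induce G Cᶜ h0)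
      rw [Nat.sub_add_cancel h0] at h3
      exact minorIn_of_induce G _ _ h3
  refine h2 (minor_join G {x} ((Cᶜ : Finset V) : Set V) 1 _ (minorIn_singleton G x 1 le_rfl) hM ?_ _
    (by omega))
  intro a ha b hb
  rw [Set.mem_singleton_iff] at ha
  subst ha
  rw [Finset.mem_coe, Finset.mem_compl, hmemC] at hb
  push Not at hb
  by_contra hG
  exact hb.2 ((hHadj a b).2 ⟨fun h => hb.1 h.symm, hG⟩)

open Classical in
theorem half_minor (hodd : S_ODD) {V : Type} [Fintype V] (G H : SimpleGraph V)
    (hHadj : ∀ u v, H.Adj u v ↔ u ≠ v ∧ ¬ G.Adj u v) (hC : C4Free H) (hN : NoSimp H)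
    (t : ℕ) (ht : 2 * t ≤ Fintype.card V + 1) : SmallMinor G t := by
  rcases Nat.even_or_odd (Fintype.card V) with he | ho
  · obtain ⟨f, hf, hf'⟩ := even_lem V H hC hN he
    exact minor_of_involution G H hHadj hC f hf (fun x _ => (hf' x).2)
      (fun x hx => absurd hx (hf' x).1) t ht
  · obtain ⟨v, f, hf, hv, hf'⟩ := hodd V H hC hN ho
    refine minor_of_involution G H hHadj hC f hf ?_ ?_ t ht
    · intro x hx
      have hxv : x ≠ v := by rintro rfl; exact hx hv
      exact (hf' x hxv).2.1
    · intro x hx y hy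
      have hxv : x = v := by
        by_contra hxv
        exact (hf' x hxv).1 hx
      subst hxv
      exact ⟨(hf' y hy).1, (hf' y hy).2.2⟩

open Classical in
theorem c4free_induce {V : Type} (G : SimpleGraph V) (U : Set V) (h : C4Free Gᶜ) :
    C4Free (G.induce U)ᶜ := by
  have key : ∀ a b : U, (G.induce U)ᶜ.Adj a b → Gᶜ.Adj a.1 b.1 := by
    intro a b hab
    rw [SimpleGraph.compl_adj] at hab ⊢
    exact ⟨fun h => hab.1 (Subtype.ext h), fun h => hab.2 h⟩
  intro a b c d hac hbd h1 h2 h3 h4
  exact h a.1 b.1 c.1 d.1 (fun h => hac (Subtype.ext h)) (fun h => hbd (Subtype.ext h))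
    (key _ _ h1) (key _ _ h2) (key _ _ h3) (key _ _ h4)

open Classical in
theorem main_min (hodd : S_ODD) {V : Type} [Fintype V] (G H : SimpleGraph V)
    (hHadj : ∀ u v, H.Adj u v ↔ u ≠ v ∧ ¬ G.Adj u v) (hC : C4Free H) (k : ℕ)
    (h1 : ¬ G.Colorable k) (h2 : ¬ HasCliqueMinor G (k + 1))
    (hmin : ∀ U : Set V, U ≠ Set.univ → ∀ j, ¬ (G.induce U).Colorable j →
      HasCliqueMinor (G.induce U) (j + 1)) : False := by
  obtain ⟨a⟩ : Nonempty V := by
    by_contra hne
    rw [not_nonempty_iff] at hne
    exact h1 ⟨SimpleGraph.Coloring.mk (fun v => (hne.false v).elim)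
      (fun {v} => (hne.false v).elim)⟩
  have hcrit := crit_of_min G 1 k (le_refl 1) h1 h2 hmin
  have huniv : comp H a = univ := by
    by_contra hne
    have hne' : ((comp H a : Finset V) : Set V) ≠ Set.univ := by
      intro h
      exact hne (Finset.coe_eq_univ.1 h)
    refine good_set G 1 k (le_refl 1) h1 h2 hmin (comp H a) ⟨a, ?_⟩ ?_ ?_
    · simp only [comp, mem_filter, mem_univ, true_and]
      exact SimpleGraph.Reachable.refl a
    · intro x hx y hy
      exact comp_joined G H hHadj a x hx y (by rw [mem_compl] at hy; exact hy)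
    · rcases Nat.eq_zero_or_pos (Y (Ind G) (comp H a)) with h0 | h0
      · rw [h0]; exact minorIn_zero G _
      · have h3 := hmin _ hne' _ (not_colorable_induce G (comp H a) h0)
        rw [Nat.sub_add_cancel h0] at h3
        exact minorIn_of_induce G _ _ h3
  have hg := comp_gallai G H hHadj hcrit a
  rw [huniv, Finset.card_univ] at hg
  have hk := lt_Y_univ G k h1
  obtain ⟨f, _, hf1, hf2, hf3⟩ :=
    half_minor hodd G H hHadj hC (noSimp_of_min G H hHadj k h1 h2 hmin) (k + 1) (by omega)
  exact h2 ⟨f, hf1, hf2, hf3⟩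

theorem main_hadwiger (hodd : S_ODD) : ∀ (n : ℕ) (V : Type) [Fintype V] (G : SimpleGraph V),
    Fintype.card V = n → C4Free Gᶜ → ∀ k : ℕ, ¬ G.Colorable k → HasCliqueMinor G (k + 1) := by
  classical
  intro n
  induction n using Nat.strong_induction_on with
  | _ n ih =>
    intro V _ G hn hC k h1
    by_contra h2
    refine main_min hodd G Gᶜ (fun u v => by rw [SimpleGraph.compl_adj]) hC k h1 h2 ?_
    intro U hU j hj
    have hlt : Fintype.card U < n := by
      rw [← hn]
      obtain ⟨x, hx⟩ : ∃ x, x ∉ U := by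
        by_contra h
        push Not at h
        exact hU (Set.eq_univ_of_forall h)
      exact Fintype.card_subtype_lt hx
    exact ih _ hlt U (G.induce U) rfl (c4free_induce G U hC) j hj

end Pool.Agent.R3.C4H
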