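import Pool.Agent.R3.C4H.Tut

namespace Pool.Agent.R3.C4H

open SimpleGraph

/-- the combinatorial core of the odd case -/
theorem odd_core {V : Type} [Fintype V] [DecidableEq V] (H : SimpleGraph V) (h4 : C4Free H)
    (hs : NoSimp H) (v : V) (S : Finset V) (c : V → ℕ) (m : ℕ) (hm : S.card = m)
    (g : Fin (m + 2) → V)
    (hsep : ∀ x y, (x ≠ v ∧ x ∉ S) → (y ≠ v ∧ y ∉ S) → c x ≠ c y →
      H.Adj x y ∨ (H.Adj v x ∧ H.Adj v y))
    (hg : ∀ i, g i ≠ v ∧ g i ∉ S) (hginj : ∀ i j, c (g i) = c (g j) → i = j)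
    (hodd : ∀ i, Odd (Finset.univ.filter
      (fun x => (x ≠ v ∧ x ∉ S) ∧ c x = c (g i))).card) : False := by
  have F1 : ∀ a b x y, a ≠ b → x ≠ y → H.Adj a x → H.Adj a y → H.Adj b x → H.Adj b y →
      False := by
    intro a b x y hab hxy h1 h2 h3 h5
    exact h4 a x b y hab hxy h1 h3.symm h5 h2.symm
  have FN : ∀ y p q, y ≠ v → H.Adj v p → H.Adj v q → H.Adj y p → H.Adj y q → p = q := by
    intro y p q hy hp hq h1 h2
    by_contra hne
    exact F1 y v p q hy hne h1 h2 hp hq
  have F2 : ∀ x, H.Adj v x → ∃ y, y ≠ v ∧ ¬ H.Adj v y ∧ H.Adj x y := by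
    intro x hx
    obtain ⟨a, b, ha, hb, hab, hnab⟩ := hs x
    by_cases hav : a = v
    · exact ⟨b, fun h => hab (by rw [hav, h]), fun h => hnab (by rw [hav]; exact h), hb⟩
    by_cases hbv : b = v
    · exact ⟨a, hav, fun h => hnab (by rw [hbv]; exact h.symm), ha⟩
    by_cases hNa : H.Adj v a
    · exact ⟨b, hbv, fun hNb => hab (FN x a b hx.ne' hNa hNb ha hb), hb⟩
    · exact ⟨a, hav, hNa, ha⟩
  have e : ∀ i j : ℕ, ∀ (hi : i < m + 2) (hj : j < m + 2), i ≠ j →
      c (g ⟨i, hi⟩) ≠ c (g ⟨j, hj⟩) := fun i j hi hj h h' => h (Fin.mk.inj (hginj _ _ h'))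
  by_cases hcase : ∀ x, x ≠ v → x ∉ S → H.Adj v x
  · choose φ hφ1 hφ2 hφ3 using F2
    have hN : ∀ i, H.Adj v (g i) := fun i => hcase _ (hg i).1 (hg i).2
    let ψ : Fin (m + 2) → V := fun i => φ (g i) (hN i)
    have hψS : ∀ i, ψ i ∈ S := by
      intro i
      by_contra hn
      exact hφ2 (g i) (hN i) (hcase _ (hφ1 _ _) hn)
    have hψinj : Function.Injective ψ := by
      intro i j hij
      apply hginj
      have h1 : H.Adj (ψ i) (g i) := (hφ3 (g i) (hN i)).symm
      have h2 : H.Adj (ψ i) (g j) := by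
        rw [hij]
        exact (hφ3 (g j) (hN j)).symm
      rw [FN (ψ i) (g i) (g j) (hφ1 _ _) (hN i) (hN j) h1 h2]
    have h1 := Finset.card_le_card_of_injOn ψ (s := Finset.univ) (t := S)
      (fun i _ => hψS i) hψinj.injOn
    rw [Finset.card_univ, Fintype.card_fin] at h1
    omega
  · push Not at hcase
    obtain ⟨y, hyv, hyS, hyN⟩ := hcase
    have A : ∀ x, (x ≠ v ∧ x ∉ S) → c x ≠ c y → H.Adj y x := by
      intro x hx hc
      rcases hsep y x ⟨hyv, hyS⟩ hx hc.symm with h | h
      · exact h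
      · exact absurd h.1 hyN
    have L : ∀ x x', (x ≠ v ∧ x ∉ S) → (x' ≠ v ∧ x' ∉ S) → c x ≠ c x' → c x ≠ c y →
        c x' ≠ c y → H.Adj x x' := by
      intro x x' h1 h2 h6 h7 h8
      rcases hsep x x' h1 h2 h6 with h | h
      · exact h
      · exact absurd (by rw [FN y x x' hyv h.1 h.2 (A x h1 h7) (A x' h2 h8)]) h6
    have T : ∀ x1 x2 x3, (x1 ≠ v ∧ x1 ∉ S) → (x2 ≠ v ∧ x2 ∉ S) → (x3 ≠ v ∧ x3 ∉ S) →
        c x1 ≠ c x2 → c x2 ≠ c x3 → c x1 ≠ c x3 → c x1 ≠ c y → c x2 ≠ c y → c x3 ≠ c y →
        False := by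
      intro x1 x2 x3 o1 o2 o3 h12 h23 h13 h1 h2 h3
      exact h4 y x1 x2 x3 (fun h => h2 (by rw [h])) (fun h => h13 (by rw [h])) (A x1 o1 h1)
        (L x1 x2 o1 o2 h12 h1 h2) (L x2 x3 o2 o3 h23 h2 h3) (A x3 o3 h3).symm
    have Tri : ∀ z w, (z ≠ v ∧ z ∉ S) → (w ≠ v ∧ w ∉ S) → c z ≠ c w → c z ≠ c y → c w ≠ c y →
        ∀ x x', (x ≠ v ∧ x ∉ S) → (x' ≠ v ∧ x' ∉ S) → x ≠ x' → H.Adj x x' := by
      intro z w oz ow hzw hz hw
      have ayz := A z oz hz
      have ayw := A w ow hw
      have azw := L z w oz ow hzw hz hw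
      have sz : ∀ z', (z' ≠ v ∧ z' ∉ S) → c z' = c z → z' = z := by
        intro z' oz' hc
        by_contra hne
        exact h4 z y z' w (fun h => hne h.symm) (fun h => hw (by rw [h])) ayz.symm
          (A z' oz' (by rw [hc]; exact hz))
          (L z' w oz' ow (by rw [hc]; exact hzw) (by rw [hc]; exact hz) hw) azw.symm
      have sw : ∀ w', (w' ≠ v ∧ w' ∉ S) → c w' = c w → w' = w := by
        intro w' ow' hc
        by_contra hne
        exact h4 w y w' z (fun h => hne h.symm) (fun h => hz (by rw [h])) ayw.symm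
          (A w' ow' (by rw [hc]; exact hw))
          (L w' z ow' oz (by rw [hc]; exact hzw.symm) (by rw [hc]; exact hw) hz) azw
      have sy : ∀ y', (y' ≠ v ∧ y' ∉ S) → c y' = c y → y' = y := by
        intro y' oy' hc
        by_contra hne
        rcases hsep y' z oy' oz (by rw [hc]; exact hz.symm) with h1 | h1
        · rcases hsep y' w oy' ow (by rw [hc]; exact hw.symm) with h2 | h2
          · exact F1 y y' z w (fun h => hne h.symm) (fun h => hzw (by rw [h])) ayz ayw h1 h2
          · have := FN z y' w oz.1 h2.1 h2.2 h1.symm azw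
            exact hw (by rw [← this, hc])
        · rcases hsep y' w oy' ow (by rw [hc]; exact hw.symm) with h2 | h2
          · have := FN w y' z ow.1 h1.1 h1.2 h2.symm azw.symm
            exact hz (by rw [← this, hc])
          · exact hzw (by rw [FN y z w hyv h1.2 h2.2 ayz ayw])
      have hall : ∀ x, (x ≠ v ∧ x ∉ S) → x = y ∨ x = z ∨ x = w := by
        intro x ox
        by_cases e1 : c x = c y
        · exact Or.inl (sy x ox e1)
        by_cases e2 : c x = c z
        · exact Or.inr (Or.inl (sz x ox e2))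
        by_cases e3 : c x = c w
        · exact Or.inr (Or.inr (sw x ox e3))
        exact absurd (T x z w ox oz ow e2 hzw e3 e1 hz hw) id
      intro x x' ox ox' hne
      rcases hall x ox with h | h | h <;> rcases hall x' ox' with h' | h' | h' <;>
        rw [h, h'] at hne ⊢
      · exact absurd rfl hne
      · exact ayz
      · exact ayw
      · exact ayz.symm
      · exact absurd rfl hne
      · exact azw
      · exact ayw.symm
      · exact azw.symm
      · exact absurd rfl hne
    obtain ⟨a, b, ha, hb, hab, hnab⟩ := hs v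
    rcases Nat.lt_or_ge m 2 with hm2 | hm2
    · rcases Nat.lt_or_ge m 1 with hm1 | hm1
      · -- `S = ∅`
        have hSe : S = ∅ := Finset.card_eq_zero.1 (by omega)
        have hO : ∀ x, x ≠ v → (x ≠ v ∧ x ∉ S) := fun x hx => ⟨hx, by rw [hSe]; simp⟩
        obtain ⟨i0, hi0⟩ : ∃ i, c (g i) ≠ c y := by
          by_cases h0 : c (g ⟨0, by omega⟩) = c y
          · refine ⟨⟨1, by omega⟩, ?_⟩
            rw [← h0]
            exact e 1 0 _ _ (by norm_num)
          · exact ⟨_, h0⟩
        by_cases hthird : ∃ w, w ≠ v ∧ c w ≠ c y ∧ c w ≠ c (g i0)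
        · obtain ⟨w, hwv, hwy, hwz⟩ := hthird
          exact hnab (Tri (g i0) w (hg i0) (hO w hwv) hwz.symm hi0 hwy a b (hO a ha.ne')
            (hO b hb.ne') hab)
        · push Not at hthird
          by_cases hC : ∃ p, H.Adj v p ∧ c p ≠ c y
          · obtain ⟨p, hNp, hpy⟩ := hC
            have hpz : c p = c (g i0) := hthird p hNp.ne' hpy
            have hp1 : ∀ t, H.Adj v t → c t ≠ c y → t = p := by
              intro t hNt hty
              exact FN y t p hyv hNt hNp (A t (hO t hNt.ne') hty) (A p (hO p hNp.ne') hpy)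
            obtain ⟨x, hNx, hxp⟩ : ∃ x, H.Adj v x ∧ x ≠ p := by
              by_cases hap : a = p
              · exact ⟨b, hb, fun h => hab (by rw [hap, h])⟩
              · exact ⟨a, ha, hap⟩
            have hxy : c x = c y := by
              by_contra hc
              exact hxp (hp1 x hNx hc)
            have hxney : x ≠ y := fun h => hyN (h ▸ hNx)
            have hC2 : ∀ t, t ≠ v → c t = c (g i0) → t = p := by
              intro t htv htc
              by_contra htp
              set C2 := Finset.univ.filter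
                (fun x => (x ≠ v ∧ x ∉ S) ∧ c x = c (g i0)) with hC2
              have hpC : p ∈ C2 := Finset.mem_filter.2
                ⟨Finset.mem_univ _, hO p hNp.ne', hpz⟩
              have htC : t ∈ C2.erase p := Finset.mem_erase.2
                ⟨htp, Finset.mem_filter.2 ⟨Finset.mem_univ _, hO t htv, htc⟩⟩
              have hcd : (C2.erase p).card = C2.card - 1 := Finset.card_erase_of_mem hpC
              have hpos : 0 < (C2.erase p).card := Finset.card_pos.2 ⟨t, htC⟩
              have ho : Odd C2.card := hodd i0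
              rw [Nat.odd_iff] at ho
              have h2 : 1 < (C2.erase p).card := by omega
              obtain ⟨t1, ht1, t2, ht2, h12⟩ := Finset.one_lt_card.1 h2
              have key : ∀ u ∈ C2.erase p, H.Adj x u ∧ H.Adj y u := by
                intro u hu
                obtain ⟨hup, hu'⟩ := Finset.mem_erase.1 hu
                obtain ⟨-, ou, huc⟩ := Finset.mem_filter.1 hu'
                have huy : c u ≠ c y := by rw [huc]; exact hi0
                have huN : ¬ H.Adj v u := fun h => hup (hp1 u h huy)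
                refine ⟨?_, A u ou huy⟩
                rcases hsep x u (hO x hNx.ne') ou (by rw [hxy]; exact huy.symm) with h | h
                · exact h
                · exact absurd h.2 huN
              exact F1 x y t1 t2 hxney h12 (key t1 ht1).1 (key t2 ht2).1 (key t1 ht1).2
                (key t2 ht2).2
            obtain ⟨w, hwv, hwN, hxw⟩ := F2 x hNx
            have hwy : c w = c y := by
              by_contra hc
              have := hC2 w hwv (hthird w hwv hc)
              exact hwN (this ▸ hNp)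
            have hwp : H.Adj w p := by
              rcases hsep w p (hO w hwv) (hO p hNp.ne') (by rw [hwy]; exact hpy.symm) with h | h
              · exact h
              · exact absurd h.1 hwN
            exact h4 v x w p (fun h => hwv h.symm) hxp hNx hxw hwp hNp.symm
          · push Not at hC
            have hzN : ¬ H.Adj v (g i0) := fun h => hi0 (hC _ h)
            have hz : ∀ u, H.Adj v u → H.Adj (g i0) u := by
              intro u hu
              rcases hsep u (g i0) (hO u hu.ne') (hg i0) (by rw [hC u hu]; exact hi0.symm) with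
                h | h
              · exact h.symm
              · exact absurd h.2 hzN
            exact hab (FN (g i0) a b (hg i0).1 ha hb (hz a ha) (hz b hb))
      · -- `S = {s}`
        obtain ⟨s, hSs⟩ := Finset.card_eq_one.1 (show S.card = 1 by omega)
        have hSiff : ∀ x, x ∈ S ↔ x = s := fun x => by rw [hSs, Finset.mem_singleton]
        obtain ⟨z, w, oz, ow, hzw, hz, hw⟩ : ∃ z w, (z ≠ v ∧ z ∉ S) ∧ (w ≠ v ∧ w ∉ S) ∧
            c z ≠ c w ∧ c z ≠ c y ∧ c w ≠ c y := by
          by_cases h0 : c (g ⟨0, by omega⟩) = c y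
          · refine ⟨_, _, hg ⟨1, by omega⟩, hg ⟨2, by omega⟩, e 1 2 _ _ (by norm_num), ?_, ?_⟩
            · rw [← h0]
              exact e 1 0 _ _ (by norm_num)
            · rw [← h0]
              exact e 2 0 _ _ (by norm_num)
          · by_cases h1 : c (g ⟨1, by omega⟩) = c y
            · refine ⟨_, _, hg ⟨0, by omega⟩, hg ⟨2, by omega⟩, e 0 2 _ _ (by norm_num), h0, ?_⟩
              rw [← h1]
              exact e 2 1 _ _ (by norm_num)
            · exact ⟨_, _, hg ⟨0, by omega⟩, hg ⟨1, by omega⟩, e 0 1 _ _ (by norm_num), h0, h1⟩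
        have tri := Tri z w oz ow hzw hz hw
        obtain ⟨p, hNp, hpS, hNs⟩ : ∃ p, H.Adj v p ∧ p ∉ S ∧ H.Adj v s := by
          by_cases haS : a ∈ S
          · by_cases hbS : b ∈ S
            · exact absurd (by rw [(hSiff a).1 haS, (hSiff b).1 hbS]) hab
            · exact ⟨b, hb, hbS, by rw [← (hSiff a).1 haS]; exact ha⟩
          · by_cases hbS : b ∈ S
            · exact ⟨a, ha, haS, by rw [← (hSiff b).1 hbS]; exact hb⟩
            · exact absurd (tri a b ⟨ha.ne', haS⟩ ⟨hb.ne', hbS⟩ hab) hnab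
        have hps : s ≠ p := fun h => hpS ((hSiff p).2 h.symm)
        have fin : ∀ q, q ≠ v → q ∉ S → ¬ H.Adj v q → H.Adj s q → False := by
          intro q hqv hqS hqN hsq
          have hqp : q ≠ p := fun h => hqN (h ▸ hNp)
          exact h4 v s q p (fun h => hqv h.symm) hps hNs hsq
            (tri q p ⟨hqv, hqS⟩ ⟨hNp.ne', hpS⟩ hqp) hNp.symm
        obtain ⟨a', b', ha', hb', hab', hnab'⟩ := hs s
        have haS' : a' ∉ S := fun h => ha'.ne' ((hSiff a').1 h)
        have hbS' : b' ∉ S := fun h => hb'.ne' ((hSiff b').1 h)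
        by_cases hav : a' = v
        · exact fin b' (fun h => hab' (by rw [hav, h])) hbS' (fun h => hnab' (by rw [hav]; exact h))
            hb'
        by_cases hbv : b' = v
        · exact fin a' hav haS' (fun h => hnab' (by rw [hbv]; exact h.symm)) ha'
        exact hnab' (tri a' b' ⟨hav, haS'⟩ ⟨hbv, hbS'⟩ hab')
    · -- at least four classes
      by_cases h0 : c (g ⟨0, by omega⟩) = c y
      · exact T (g ⟨1, by omega⟩) (g ⟨2, by omega⟩) (g ⟨3, by omega⟩) (hg _) (hg _) (hg _)
          (e 1 2 _ _ (by norm_num)) (e 2 3 _ _ (by norm_num)) (e 1 3 _ _ (by norm_num))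
          (by rw [← h0]; exact e 1 0 _ _ (by norm_num))
          (by rw [← h0]; exact e 2 0 _ _ (by norm_num))
          (by rw [← h0]; exact e 3 0 _ _ (by norm_num))
      by_cases h1 : c (g ⟨1, by omega⟩) = c y
      · exact T (g ⟨0, by omega⟩) (g ⟨2, by omega⟩) (g ⟨3, by omega⟩) (hg _) (hg _) (hg _)
          (e 0 2 _ _ (by norm_num)) (e 2 3 _ _ (by norm_num)) (e 0 3 _ _ (by norm_num))
          h0
          (by rw [← h1]; exact e 2 1 _ _ (by norm_num))
          (by rw [← h1]; exact e 3 1 _ _ (by norm_num))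
      by_cases h2 : c (g ⟨2, by omega⟩) = c y
      · exact T (g ⟨0, by omega⟩) (g ⟨1, by omega⟩) (g ⟨3, by omega⟩) (hg _) (hg _) (hg _)
          (e 0 1 _ _ (by norm_num)) (e 1 3 _ _ (by norm_num)) (e 0 3 _ _ (by norm_num))
          h0 h1
          (by rw [← h2]; exact e 3 2 _ _ (by norm_num))
      exact T (g ⟨0, by omega⟩) (g ⟨1, by omega⟩) (g ⟨2, by omega⟩) (hg _) (hg _) (hg _)
        (e 0 1 _ _ (by norm_num)) (e 1 2 _ _ (by norm_num)) (e 0 2 _ _ (by norm_num)) h0 h1 h2

theorem odd_lem : S_ODD := by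
  classical
  intro V _ H h4 hs hodd
  have hne : Nonempty V := by
    rw [← Fintype.card_pos_iff]
    exact hodd.pos
  obtain ⟨v⟩ := hne
  let K : SimpleGraph {w : V // w ≠ v} :=
    { Adj := fun x y => x ≠ y ∧ ¬ H.Adj x.1 y.1 ∧ ¬ (H.Adj v x.1 ∧ H.Adj v y.1)
      symm := ⟨fun x y h => ⟨h.1.symm, fun h' => h.2.1 h'.symm, fun h' => h.2.2 ⟨h'.2, h'.1⟩⟩⟩
      loopless := ⟨fun x h => h.1 rfl⟩ }
  have hev : Even (Fintype.card {w : V // w ≠ v}) := by
    have h1 : Fintype.card {w : V // w ≠ v} = Fintype.card V - 1 := by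
      rw [Fintype.card_subtype_compl, Fintype.card_subtype_eq]
    rw [h1]
    exact Nat.Odd.sub_odd hodd odd_one
  rcases tut {w : V // w ≠ v} K hev with ⟨f, hf, hadj⟩ | ⟨S, c, g, hsep, hgS, hginj, hod⟩
  · refine ⟨v, fun x => if h : x ≠ v then (f ⟨x, h⟩).1 else v, ?_, ?_, ?_⟩
    · intro x
      by_cases hx : x ≠ v
      · have h1 : (f ⟨x, hx⟩).1 ≠ v := (f ⟨x, hx⟩).2
        simp only [dif_pos hx, dif_pos h1]
        rw [show (⟨(f ⟨x, hx⟩).1, h1⟩ : {w : V // w ≠ v}) = f ⟨x, hx⟩ from rfl, hf]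
      · simp only [dif_neg hx]
        push Not at hx
        simp [hx]
    · simp
    · intro x hx
      simp only [dif_pos hx]
      obtain ⟨h1, h2, h3⟩ := hadj ⟨x, hx⟩
      exact ⟨fun h => h1 (Subtype.ext h.symm), h2, h3⟩
  · exfalso
    let S' : Finset V := S.map (Function.Embedding.subtype _)
    have hS' : ∀ x (hx : x ≠ v), x ∈ S' ↔ (⟨x, hx⟩ : {w : V // w ≠ v}) ∈ S := by
      intro x hx
      constructor
      · intro h
        obtain ⟨t, ht, rfl⟩ := Finset.mem_map.1 h
        exact ht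
      · intro h
        exact Finset.mem_map.2 ⟨_, h, rfl⟩
    let c' : V → ℕ := fun x => if h : x ≠ v then c ⟨x, h⟩ else 0
    have hc' : ∀ x (hx : x ≠ v), c' x = c ⟨x, hx⟩ := fun x hx => dif_pos hx
    refine odd_core H h4 hs v S' c' S.card (Finset.card_map _) (fun i => (g i).1) ?_ ?_ ?_ ?_
    · intro x y hx hy hxy
      rw [hc' x hx.1, hc' y hy.1] at hxy
      have h1 := hsep ⟨x, hx.1⟩ ⟨y, hy.1⟩ (fun h => hx.2 ((hS' x hx.1).2 h))
        (fun h => hy.2 ((hS' y hy.1).2 h)) hxy
      by_contra hcon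
      push Not at hcon
      exact h1 ⟨fun h => hxy (by rw [h]), hcon.1, fun h => hcon.2 h.1 h.2⟩
    · intro i
      exact ⟨(g i).2, fun h => hgS i ((hS' _ (g i).2).1 h)⟩
    · intro i j hij
      rw [hc' _ (g i).2, hc' _ (g j).2] at hij
      exact hginj i j hij
    · intro i
      have h1 := hod i
      rw [← Finset.card_map (Function.Embedding.subtype (fun w : V => w ≠ v))] at h1
      convert h1 using 2
      ext x
      simp only [Finset.mem_filter, Finset.mem_univ, true_and, Finset.mem_map,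
        Function.Embedding.coe_subtype]
      constructor
      · rintro ⟨⟨hx1, hx2⟩, hx3⟩
        rw [hc' x hx1, hc' _ (g i).2] at hx3
        exact ⟨⟨x, hx1⟩, ⟨fun h => hx2 ((hS' x hx1).2 h), hx3⟩, rfl⟩
      · rintro ⟨t, ⟨ht1, ht2⟩, rfl⟩
        refine ⟨⟨t.2, fun h => ht1 ((hS' _ t.2).1 h)⟩, ?_⟩
        rw [hc' _ t.2, hc' _ (g i).2]
        exact ht2

end Pool.Agent.R3.C4H
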