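import Pool.Agent.R3.C4H.Stm

namespace Pool.Agent.R3.C4H

open SimpleGraph

theorem tut : S_TUT := by
  classical
  intro W _ _ K hev
  by_cases h : ∃ M : Subgraph K, M.IsPerfectMatching
  · left
    obtain ⟨M, hM⟩ := h
    rw [Subgraph.isPerfectMatching_iff] at hM
    choose f hf hf2 using hM
    refine ⟨f, fun x => ?_, fun x => (hf x).adj_sub⟩
    exact (hf2 (f x) x (hf x).symm).symm
  · right
    have h2 : ∃ u : Set W, K.IsTutteViolator u := by
      by_contra hcon
      push Not at hcon
      exact h (SimpleGraph.tutte.2 hcon)
    obtain ⟨u, hu⟩ := h2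
    unfold SimpleGraph.IsTutteViolator at hu
    set D := ((⊤ : K.Subgraph).deleteVerts u) with hD
    have hverts : ∀ x : W, x ∈ D.verts ↔ x ∉ u := by
      intro x; simp [hD]
    have hpar : Odd D.coe.oddComponents.ncard ↔ Odd (Nat.card D.verts) :=
      SimpleGraph.odd_ncard_oddComponents D.coe
    have hcard : Nat.card D.verts + u.ncard = Fintype.card W := by
      have e1 : D.verts = uᶜ := by ext x; rw [hverts]; rfl
      rw [e1, Nat.card_coe_set_eq, Set.ncard_eq_toFinset_card' , Set.ncard_eq_toFinset_card',
        Set.toFinset_compl, Finset.card_compl]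
      have := Finset.card_le_univ u.toFinset
      omega
    have hge : u.ncard + 2 ≤ D.coe.oddComponents.ncard := by
      by_contra hlt
      have heq : D.coe.oddComponents.ncard = u.ncard + 1 := by omega
      rw [heq] at hpar
      rw [Nat.odd_iff, Nat.odd_iff] at hpar
      rw [Nat.even_iff] at hev
      omega
    obtain ⟨e⟩ : Nonempty (D.coe.ConnectedComponent ≃ Fin (Fintype.card D.coe.ConnectedComponent)) :=
      ⟨Fintype.equivFin _⟩
    let S : Finset W := u.toFinset
    have hS : ∀ x, x ∈ S ↔ x ∈ u := fun x => by simp [S]
    have hScard : S.card = u.ncard := by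
      rw [Set.ncard_eq_toFinset_card']
    let c : W → ℕ := fun x => if hx : x ∈ D.verts then (e (D.coe.connectedComponentMk ⟨x, hx⟩)).1 else 0
    have hc : ∀ x (hx : x ∈ D.verts), c x = (e (D.coe.connectedComponentMk ⟨x, hx⟩)).1 := by
      intro x hx; simp only [c, dif_pos hx]
    -- embedding into odd components
    have hemb : Nonempty (Fin (S.card + 2) ↪ D.coe.oddComponents) := by
      apply Function.Embedding.nonempty_of_card_le
      rw [Fintype.card_fin, hScard]
      have : Fintype.card D.coe.oddComponents = D.coe.oddComponents.ncard := by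
        rw [Set.ncard_eq_toFinset_card', Set.toFinset_card]
      omega
    obtain ⟨φ⟩ := hemb
    have hrep : ∀ i, ∃ x : D.verts, D.coe.connectedComponentMk x = (φ i).1 := fun i => by
      obtain ⟨x, hx⟩ := (φ i).1.exists_rep
      exact ⟨x, hx⟩
    choose r hr using hrep
    refine ⟨S, c, fun i => (r i).1, ?_, ?_, ?_, ?_⟩
    · intro x y hx hy hxy hadj
      have hx' : x ∈ D.verts := (hverts x).2 (fun h => hx ((hS x).2 h))
      have hy' : y ∈ D.verts := (hverts y).2 (fun h => hy ((hS y).2 h))
      apply hxy
      rw [hc x hx', hc y hy']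
      congr 2
      apply ConnectedComponent.sound
      apply Adj.reachable
      simp only [Subgraph.coe_adj, hD, Subgraph.deleteVerts_adj, Subgraph.verts_top, Set.mem_univ,
        true_and, Subgraph.top_adj]
      exact ⟨(hverts x).1 hx', (hverts y).1 hy', hadj⟩
    · intro i h
      exact (hverts _).1 (r i).2 ((hS _).1 h)
    · intro i j hij
      simp only at hij
      rw [hc _ (r i).2, hc _ (r j).2] at hij
      have h3 := e.injective (Fin.ext hij)
      have h4 : (φ i).1 = (φ j).1 := by rw [← hr i, ← hr j]; exact h3
      exact φ.injective (Subtype.ext h4)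
    · intro i
      have hodd : Odd (φ i).1.supp.ncard := (φ i).2
      have heq : (Finset.univ.filter (fun x => x ∉ S ∧ c x = c (r i).1)).card =
          (φ i).1.supp.ncard := by
        rw [← Set.ncard_coe_finset]
        rw [← Set.ncard_image_of_injective (φ i).1.supp Subtype.val_injective]
        congr 1
        ext x
        simp only [Finset.coe_filter, Finset.mem_univ, true_and, Set.mem_setOf_eq, Set.mem_image,
          ConnectedComponent.mem_supp_iff]
        constructor
        · rintro ⟨hx, hcx⟩
          have hx' : x ∈ D.verts := (hverts x).2 (fun h => hx ((hS x).2 h))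
          refine ⟨⟨x, hx'⟩, ?_, rfl⟩
          rw [hc x hx', hc _ (r i).2] at hcx
          have h3 := e.injective (Fin.ext hcx)
          rw [h3]
          exact hr i
        · rintro ⟨⟨x', hx'⟩, hxc, rfl⟩
          refine ⟨fun h => (hverts _).1 hx' ((hS _).1 h), ?_⟩
          rw [hc _ hx', hc _ (r i).2]
          congr 2
          rw [hxc]
          exact (hr i).symm
      rw [heq]; exact hodd

end Pool.Agent.R3.C4H
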